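import Pool.Agent.Helper16_XQ.Ana2

/-!
Squad XQ (MP_5b0138_an), module U2: the items of the types B, H, E (step 4 of the uniqueness of
the sums). If the density of the sum vanishes identically, the lists agree.
-/

set_option autoImplicit false

namespace Pool.Agent.XQ.H59

open Filter Topology Pool.Agent.AEU
open Pool.Agent.AEU.H12 (Ceta KKf)

/-- density of the group of the types B, E (polygon `P`) and B, H (polygon `Q`) -/
noncomputable def gBHE (BP BQ : List (ℝ × ℝ)) (HQ : List ℝ) (EP : List (ℝ × ℝ × ℝ)) (v : ℝ) : ℝ :=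
  (BP.map fun p => Ceta (Real.pi / p.1) p.2 - KKf (Real.pi / p.1) (2 * v)).sum
    + (EP.map fun p => 2 * (Ceta (Real.pi / p.1) p.2.2 - KKt (Real.pi / p.1) p.2.1 v)).sum
    - (BQ.map fun p => Ceta (Real.pi / p.1) p.2 - KKf (Real.pi / p.1) (2 * v)).sum
    - (HQ.map fun α => 1 / 2 * (Ceta (Real.pi / α) 0 - KKf (Real.pi / α) (2 * v))).sum

/-! ### Limits -/

lemma lim_frac {b : ℝ} (hb : 0 < b) (c : ℝ) :
    Tendsto (fun v : ℝ => Real.exp (2 * b * v) / (Real.cosh (2 * b * v) - c)) atTop (𝓝 2) := by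
  have h1 : Tendsto (fun v : ℝ => Real.exp (-(2 * b * v))) atTop (𝓝 0) := by
    apply Real.tendsto_exp_neg_atTop_nhds_zero.comp
    exact tendsto_id.const_mul_atTop (by positivity)
  have h2 : Tendsto (fun v : ℝ => (1 / 2 + Real.exp (-(2 * b * v)) * Real.exp (-(2 * b * v)) / 2
      - c * Real.exp (-(2 * b * v)))⁻¹) atTop (𝓝 ((1 / 2 + 0 * 0 / 2 - c * 0)⁻¹)) := by
    apply Tendsto.inv₀
    · exact ((tendsto_const_nhds.add ((h1.mul h1).div_const 2)).sub (h1.const_mul c))
    · norm_num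
  have e : ((1 / 2 + 0 * 0 / 2 - c * 0)⁻¹ : ℝ) = 2 := by norm_num
  rw [e] at h2
  refine h2.congr fun v => ?_
  have h3 : Real.exp (2 * b * v) * Real.exp (-(2 * b * v)) = 1 := by
    rw [← Real.exp_add, add_neg_cancel, Real.exp_zero]
  have hp := Real.exp_pos (2 * b * v)
  have h4 : Real.cosh (2 * b * v) - c = Real.exp (2 * b * v) *
      (1 / 2 + Real.exp (-(2 * b * v)) * Real.exp (-(2 * b * v)) / 2
        - c * Real.exp (-(2 * b * v))) := by
    rw [Real.cosh_eq]
    linear_combination (-(Real.exp (-(2 * b * v))) / 2 + c) * h3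
  rw [h4]
  field_simp

/-- the decay rate: the factor `exp (2 (b₀ - b) v)` -/
lemma lim_rate {b b0 : ℝ} (h : b0 ≤ b) :
    Tendsto (fun v : ℝ => Real.exp (-(2 * (b - b0) * v))) atTop
      (𝓝 (if b = b0 then 1 else 0)) := by
  split_ifs with hb
  · rw [hb]; simp
  · have hlt : 0 < b - b0 := by
      rcases h.lt_or_eq with h | h
      · linarith
      · exact absurd h.symm hb
    apply Real.tendsto_exp_neg_atTop_nhds_zero.comp
    exact tendsto_id.const_mul_atTop (by positivity)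

lemma lim_item {b b0 : ℝ} (hb : 0 < b) (h : b0 ≤ b) (c : ℝ) :
    Tendsto (fun v : ℝ => Real.exp (2 * b0 * v) * (Real.cosh (2 * b * v) - c)⁻¹) atTop
      (𝓝 (if b = b0 then 2 else 0)) := by
  have h1 := (lim_rate h).mul (lim_frac hb c)
  have e : (if b = b0 then (1 : ℝ) else 0) * 2 = if b = b0 then 2 else 0 := by
    split_ifs <;> norm_num
  rw [e] at h1
  refine h1.congr fun v => ?_
  rw [div_eq_mul_inv, ← mul_assoc, ← Real.exp_add]
  congr 2
  ring

lemma lim_KKf {b b0 : ℝ} (hb : 0 < b) (h : b0 ≤ b) :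
    Tendsto (fun v : ℝ => Real.exp (2 * b0 * v) * KKf b (2 * v)) atTop
      (𝓝 (if b = b0 then -(b0 * Real.sin (b0 * Real.pi)) else 0)) := by
  have h1 := (lim_item hb h (Real.cos (b * Real.pi))).const_mul
    (b / 2 * (-Real.sin (b * Real.pi)))
  have e : b / 2 * (-Real.sin (b * Real.pi)) * (if b = b0 then 2 else 0)
      = if b = b0 then -(b0 * Real.sin (b0 * Real.pi)) else 0 := by
    split_ifs with hb0
    · rw [hb0]; ring
    · ring
  rw [e] at h1
  refine h1.congr fun v => ?_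
  unfold KKf
  rw [show b * (2 * v) = 2 * b * v by ring, div_eq_mul_inv]
  ring

lemma lim_KKt {b b0 θ : ℝ} (hb : 0 < b) (h : b0 ≤ b) :
    Tendsto (fun v : ℝ => Real.exp (2 * b0 * v) * KKt b θ v) atTop
      (𝓝 (if b = b0 then -(b0 * Real.sin (b0 * Real.pi)) * Real.cos (2 * b0 * θ) else 0)) := by
  have h1 := ((lim_item hb h (Real.cos (b * Real.pi + 2 * b * θ))).const_mul
    (-(b / 4) * Real.sin (b * Real.pi + 2 * b * θ))).add
    ((lim_item hb h (Real.cos (b * Real.pi - 2 * b * θ))).const_mul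
    (-(b / 4) * Real.sin (b * Real.pi - 2 * b * θ)))
  have e : -(b / 4) * Real.sin (b * Real.pi + 2 * b * θ) * (if b = b0 then 2 else 0) +
      -(b / 4) * Real.sin (b * Real.pi - 2 * b * θ) * (if b = b0 then 2 else 0)
      = if b = b0 then -(b0 * Real.sin (b0 * Real.pi)) * Real.cos (2 * b0 * θ) else 0 := by
    split_ifs with hb0
    · rw [hb0, Real.sin_add, Real.sin_sub]; ring
    · ring
  rw [e] at h1
  refine h1.congr fun v => ?_
  unfold KKt
  rw [div_eq_mul_inv, div_eq_mul_inv]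
  ring

/-! ### The coefficient of the slowest exponential -/

/-- the nonconstant part -/
noncomputable def gK (BP BQ : List (ℝ × ℝ)) (HQ : List ℝ) (EP : List (ℝ × ℝ × ℝ)) (v : ℝ) : ℝ :=
  (BP.map fun p => KKf (Real.pi / p.1) (2 * v)).sum
    + (EP.map fun p => 2 * KKt (Real.pi / p.1) p.2.1 v).sum
    - (BQ.map fun p => KKf (Real.pi / p.1) (2 * v)).sum
    - (HQ.map fun α => 1 / 2 * KKf (Real.pi / α) (2 * v)).sum

/-- the constant part -/
noncomputable def gC (BP BQ : List (ℝ × ℝ)) (HQ : List ℝ) (EP : List (ℝ × ℝ × ℝ)) : ℝ :=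
  (BP.map fun p => Ceta (Real.pi / p.1) p.2).sum
    + (EP.map fun p => 2 * Ceta (Real.pi / p.1) p.2.2).sum
    - (BQ.map fun p => Ceta (Real.pi / p.1) p.2).sum
    - (HQ.map fun α => 1 / 2 * Ceta (Real.pi / α) 0).sum

lemma sum_map_sub' {α : Type*} (l : List α) (f g : α → ℝ) :
    (l.map fun a => f a - g a).sum = (l.map f).sum - (l.map g).sum := by
  induction l with
  | nil => simp
  | cons a l ih => simp only [List.map_cons, List.sum_cons, ih]; ring

lemma gBHE_eq (BP BQ : List (ℝ × ℝ)) (HQ : List ℝ) (EP : List (ℝ × ℝ × ℝ)) (v : ℝ) :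
    gBHE BP BQ HQ EP v = gC BP BQ HQ EP - gK BP BQ HQ EP v := by
  unfold gBHE gC gK
  simp only [mul_sub]
  rw [sum_map_sub', sum_map_sub', sum_map_sub', sum_map_sub']
  ring

lemma lim_sum {α : Type*} (l : List α) (f : α → ℝ → ℝ) (c : α → ℝ) (w : ℝ → ℝ)
    (h : ∀ a ∈ l, Tendsto (fun v => w v * f a v) atTop (𝓝 (c a))) :
    Tendsto (fun v => w v * (l.map fun a => f a v).sum) atTop (𝓝 (l.map c).sum) := by
  induction l with
  | nil => simp
  | cons a l ih =>
    simp only [List.map_cons, List.sum_cons, mul_add]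
    exact (h a (by simp)).add (ih fun b hb => h b (by simp [hb]))

/-- number of the items with the angle `α0` -/
noncomputable def nB (l : List (ℝ × ℝ)) (α0 : ℝ) : ℝ := (l.map fun p => if p.1 = α0 then (1 : ℝ) else 0).sum
noncomputable def nH (l : List ℝ) (α0 : ℝ) : ℝ := (l.map fun α => if α = α0 then (1 : ℝ) else 0).sum
noncomputable def nE (l : List (ℝ × ℝ × ℝ)) (α0 : ℝ) : ℝ :=
  (l.map fun p => if p.1 = α0 then Real.cos (2 * Real.pi * p.2.1 / p.1) else 0).sum

lemma le_div_iff' {α α0 : ℝ} (hα : 0 < α) (h : α ≤ α0) : Real.pi / α0 ≤ Real.pi / α :=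
  div_le_div_of_nonneg_left Real.pi_pos.le hα h

lemma div_eq_iff' {α α0 : ℝ} (hα : 0 < α) (hα0 : 0 < α0) :
    Real.pi / α = Real.pi / α0 ↔ α = α0 := by
  have hp := Real.pi_pos
  constructor
  · intro h
    rw [div_eq_div_iff hα.ne' hα0.ne'] at h
    exact (mul_left_cancel₀ hp.ne' h).symm
  · intro h; rw [h]

lemma sum_ite_mul {α : Type*} (l : List α) (P : α → Prop) [DecidablePred P] (f : α → ℝ) (c : ℝ) :
    (l.map fun a => if P a then c * f a else 0).sum = c * (l.map fun a => if P a then f a else 0).sum := by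
  induction l with
  | nil => simp
  | cons a l ih =>
    simp only [List.map_cons, List.sum_cons, ih, mul_add]
    split_ifs <;> simp

/-- the coefficient of the slowest exponential vanishes -/
lemma coef {BP BQ : List (ℝ × ℝ)} {HQ : List ℝ} {EP : List (ℝ × ℝ × ℝ)} {α0 : ℝ}
    (h0 : ∀ v, gK BP BQ HQ EP v = 0) (hα0 : 0 < α0)
    (hs : Real.sin (Real.pi / α0 * Real.pi) ≠ 0)
    (hBP : ∀ p ∈ BP, 0 < p.1 ∧ p.1 ≤ α0) (hBQ : ∀ p ∈ BQ, 0 < p.1 ∧ p.1 ≤ α0)
    (hHQ : ∀ α ∈ HQ, 0 < α ∧ α ≤ α0) (hEP : ∀ p ∈ EP, 0 < p.1 ∧ p.1 ≤ α0) :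
    nB BP α0 + 2 * nE EP α0 - nB BQ α0 - 1 / 2 * nH HQ α0 = 0 := by
  obtain ⟨b0, hb0⟩ : ∃ b0, b0 = Real.pi / α0 := ⟨_, rfl⟩
  have hb0p : 0 < b0 := by rw [hb0]; exact div_pos Real.pi_pos hα0
  obtain ⟨c, hc⟩ : ∃ c, c = -(b0 * Real.sin (b0 * Real.pi)) := ⟨_, rfl⟩
  have hcne : c ≠ 0 := by
    rw [hc, hb0]
    exact neg_ne_zero.mpr (mul_ne_zero (div_pos Real.pi_pos hα0).ne' hs)
  have L1 : Tendsto (fun v => Real.exp (2 * b0 * v) *
      (BP.map fun p => KKf (Real.pi / p.1) (2 * v)).sum) atTop (𝓝 (c * nB BP α0)) := by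
    have := lim_sum BP (fun p v => KKf (Real.pi / p.1) (2 * v))
      (fun p => if p.1 = α0 then c * 1 else 0) (fun v => Real.exp (2 * b0 * v)) (by
        intro p hp
        obtain ⟨h1, h2⟩ := hBP p hp
        have := lim_KKf (div_pos Real.pi_pos h1) (le_div_iff' h1 h2)
        rw [hb0]
        convert this using 2
        simp only [div_eq_iff' h1 hα0, mul_one, hc, hb0])
    rw [sum_ite_mul] at this
    exact this
  have L2 : Tendsto (fun v => Real.exp (2 * b0 * v) *
      (BQ.map fun p => KKf (Real.pi / p.1) (2 * v)).sum) atTop (𝓝 (c * nB BQ α0)) := by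
    have := lim_sum BQ (fun p v => KKf (Real.pi / p.1) (2 * v))
      (fun p => if p.1 = α0 then c * 1 else 0) (fun v => Real.exp (2 * b0 * v)) (by
        intro p hp
        obtain ⟨h1, h2⟩ := hBQ p hp
        have := lim_KKf (div_pos Real.pi_pos h1) (le_div_iff' h1 h2)
        rw [hb0]
        convert this using 2
        simp only [div_eq_iff' h1 hα0, mul_one, hc, hb0])
    rw [sum_ite_mul] at this
    exact this
  have L3 : Tendsto (fun v => Real.exp (2 * b0 * v) *
      (HQ.map fun α => 1 / 2 * KKf (Real.pi / α) (2 * v)).sum) atTop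
      (𝓝 ((c / 2) * nH HQ α0)) := by
    have := lim_sum HQ (fun α v => 1 / 2 * KKf (Real.pi / α) (2 * v))
      (fun α => if α = α0 then (c / 2) * 1 else 0) (fun v => Real.exp (2 * b0 * v)) (by
        intro p hp
        obtain ⟨h1, h2⟩ := hHQ p hp
        have := (lim_KKf (div_pos Real.pi_pos h1) (le_div_iff' h1 h2)).const_mul (1 / 2)
        rw [hb0]
        refine (this.congr fun v => by ring).trans ?_
        apply le_of_eq
        congr 1
        simp only [div_eq_iff' h1 hα0, mul_one, hc, hb0]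
        split_ifs <;> ring)
    rw [sum_ite_mul] at this
    exact this
  have L4 : Tendsto (fun v => Real.exp (2 * b0 * v) *
      (EP.map fun p => 2 * KKt (Real.pi / p.1) p.2.1 v).sum) atTop
      (𝓝 ((2 * c) * nE EP α0)) := by
    have := lim_sum EP (fun p v => 2 * KKt (Real.pi / p.1) p.2.1 v)
      (fun p => if p.1 = α0 then (2 * c) * Real.cos (2 * Real.pi * p.2.1 / p.1) else 0)
      (fun v => Real.exp (2 * b0 * v)) (by
        intro p hp
        obtain ⟨h1, h2⟩ := hEP p hp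
        have := (lim_KKt (θ := p.2.1) (div_pos Real.pi_pos h1) (le_div_iff' h1 h2)).const_mul 2
        rw [hb0]
        refine (this.congr fun v => by ring).trans ?_
        apply le_of_eq
        congr 1
        simp only [div_eq_iff' h1 hα0, hc, hb0]
        split_ifs with h
        · rw [h, show 2 * (Real.pi / α0) * p.2.1 = 2 * Real.pi * p.2.1 / α0 by ring]; ring
        · ring)
    rw [sum_ite_mul] at this
    exact this
  have L := ((L1.add L4).sub L2).sub L3
  have Z : Tendsto (fun _ : ℝ => (0 : ℝ)) atTop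
      (𝓝 (c * nB BP α0 + 2 * c * nE EP α0 - c * nB BQ α0 - c / 2 * nH HQ α0)) := by
    refine L.congr fun v => ?_
    have := h0 v
    unfold gK at this
    linear_combination Real.exp (2 * b0 * v) * this
  have := tendsto_nhds_unique Z tendsto_const_nhds
  have h5 : c * (nB BP α0 + 2 * nE EP α0 - nB BQ α0 - 1 / 2 * nH HQ α0) = 0 := by
    linear_combination this
  exact (mul_eq_zero.mp h5).resolve_left hcne

/-! ### Angles -/

lemma sin_ne {b : ℝ} (h : (1 < b ∧ b < 2) ∨ (2 < b ∧ b < 3)) : Real.sin (b * Real.pi) ≠ 0 := by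
  intro h0
  obtain ⟨n, hn⟩ := Real.sin_eq_zero_iff.mp h0
  have h1 : (n : ℝ) = b := mul_right_cancel₀ Real.pi_pos.ne' hn
  rw [← h1] at h
  have h2 : (1 < n ∧ n < 2) ∨ (2 < n ∧ n < 3) := by exact_mod_cast h
  omega

/-- the obtuse case -/
lemma sin_ne1 {α : ℝ} (h1 : Real.pi / 2 < α) (h2 : α < Real.pi) :
    Real.sin (Real.pi / α * Real.pi) ≠ 0 := by
  have hp := Real.pi_pos
  have hα : 0 < α := by linarith
  apply sin_ne
  left
  constructor
  · rw [lt_div_iff₀ hα]; linarith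
  · rw [div_lt_iff₀ hα]; linarith

/-- facts about the angles of the type B -/
lemma okB_facts {p : ℝ × ℝ} (h : OkB p) : 0 < p.1 ∧ 0 < p.2 ∧ p.2 < p.1 ∧
    Real.sin (Real.pi / p.1 * Real.pi) ≠ 0 := by
  have hp := Real.pi_pos
  rcases h with ⟨h1, h2, h3, h4, -, -⟩ | ⟨h1, h2, h3⟩
  · exact ⟨by linarith, h3, h4, sin_ne1 h1 h2⟩
  · have hα : 0 < p.1 := by linarith
    refine ⟨hα, by linarith, by linarith, sin_ne ?_⟩
    right
    constructor
    · rw [lt_div_iff₀ hα]; linarith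
    · rw [div_lt_iff₀ hα]; linarith

lemma okB_cos {p : ℝ × ℝ} (h : OkB p) :
    Real.cos (Real.pi / p.1 * Real.pi) ≠ Real.cos (2 * (Real.pi / p.1) * p.2) := by
  have hp := Real.pi_pos
  have hα := (okB_facts h).1
  intro hc
  obtain ⟨k, hk⟩ := Real.cos_eq_cos_iff.mp hc
  have hk' : p.2 = k * p.1 + Real.pi / 2 ∨ p.2 = k * p.1 - Real.pi / 2 := by
    rcases hk with hk | hk
    · left
      have : 2 * Real.pi * p.2 = 2 * Real.pi * (k * p.1 + Real.pi / 2) := by
        have e1 : 2 * (Real.pi / p.1) * p.2 * p.1 = 2 * Real.pi * p.2 := by field_simp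
        have e2 : (2 * k * Real.pi + Real.pi / p.1 * Real.pi) * p.1
            = 2 * Real.pi * (k * p.1 + Real.pi / 2) := by field_simp
        rw [← e1, hk, e2]
      exact mul_left_cancel₀ (by positivity) this
    · right
      have : 2 * Real.pi * p.2 = 2 * Real.pi * (k * p.1 - Real.pi / 2) := by
        have e1 : 2 * (Real.pi / p.1) * p.2 * p.1 = 2 * Real.pi * p.2 := by field_simp
        have e2 : (2 * k * Real.pi - Real.pi / p.1 * Real.pi) * p.1
            = 2 * Real.pi * (k * p.1 - Real.pi / 2) := by field_simp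
        rw [← e1, hk, e2]
      exact mul_left_cancel₀ (by positivity) this
  rcases h with ⟨h1, h2, h3, h4, h5, h6⟩ | ⟨h1, h2, h3⟩
  · rcases hk' with hk | hk
    · rcases lt_trichotomy k 0 with h0 | h0 | h0
      · have : (k : ℝ) ≤ -1 := by exact_mod_cast (by omega : k ≤ -1)
        nlinarith
      · rw [h0] at hk; apply h5; rw [hk]; simp
      · have : (1 : ℝ) ≤ k := by exact_mod_cast (by omega : 1 ≤ k)
        nlinarith
    · rcases lt_trichotomy k 1 with h0 | h0 | h0
      · have : (k : ℝ) ≤ 0 := by exact_mod_cast (by omega : k ≤ 0)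
        nlinarith
      · rw [h0] at hk; apply h6; rw [hk]; push_cast; ring
      · have : (2 : ℝ) ≤ k := by exact_mod_cast (by omega : 2 ≤ k)
        nlinarith
  · rcases hk' with hk | hk
    · rcases le_or_gt 0 k with h0 | h0
      · have : (0 : ℝ) ≤ k := by exact_mod_cast h0
        nlinarith
      · have : (k : ℝ) ≤ -1 := by exact_mod_cast (by omega : k ≤ -1)
        nlinarith
    · rcases le_or_gt k 1 with h0 | h0
      · have : (k : ℝ) ≤ 1 := by exact_mod_cast h0
        nlinarith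
      · have : (2 : ℝ) ≤ k := by exact_mod_cast (by omega : 2 ≤ k)
        nlinarith

/-! ### Counting -/

lemma nB_nat (l : List (ℝ × ℝ)) (α0 : ℝ) : ∃ m : ℕ, nB l α0 = m ∧ (m = 0 → ∀ p ∈ l, p.1 ≠ α0) := by
  induction l with
  | nil => exact ⟨0, by simp [nB], fun _ p hp => absurd hp (by simp)⟩
  | cons a l ih =>
    obtain ⟨m, hm, h⟩ := ih
    by_cases ha : a.1 = α0
    · refine ⟨m + 1, ?_, fun h0 => absurd h0 (by omega)⟩
      unfold nB at hm ⊢
      rw [List.map_cons, List.sum_cons, hm, if_pos ha]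
      push_cast; ring
    · refine ⟨m, ?_, fun h0 p hp => ?_⟩
      · unfold nB at hm ⊢
        rw [List.map_cons, List.sum_cons, hm, if_neg ha, zero_add]
      · rcases List.mem_cons.mp hp with rfl | hp
        · exact ha
        · exact h h0 p hp

lemma nH_nat (l : List ℝ) (α0 : ℝ) : ∃ m : ℕ, nH l α0 = m ∧ (m = 0 → ∀ p ∈ l, p ≠ α0) := by
  induction l with
  | nil => exact ⟨0, by simp [nH], fun _ p hp => absurd hp (by simp)⟩
  | cons a l ih =>
    obtain ⟨m, hm, h⟩ := ih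
    by_cases ha : a = α0
    · refine ⟨m + 1, ?_, fun h0 => absurd h0 (by omega)⟩
      unfold nH at hm ⊢
      rw [List.map_cons, List.sum_cons, hm, if_pos ha]
      push_cast; ring
    · refine ⟨m, ?_, fun h0 p hp => ?_⟩
      · unfold nH at hm ⊢
        rw [List.map_cons, List.sum_cons, hm, if_neg ha, zero_add]
      · rcases List.mem_cons.mp hp with rfl | hp
        · exact ha
        · exact h h0 p hp

lemma nE_zero {l : List (ℝ × ℝ × ℝ)} {α0 : ℝ} (h : ∀ p ∈ l, p.1 ≠ α0) : nE l α0 = 0 := by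
  induction l with
  | nil => simp [nE]
  | cons a l ih =>
    have h1 := ih fun p hp => h p (by simp [hp])
    unfold nE at h1 ⊢
    rw [List.map_cons, List.sum_cons, h1, if_neg (h a (by simp)), zero_add]

lemma nE_one {l : List (ℝ × ℝ × ℝ)} {e : ℝ × ℝ × ℝ} (he : e ∈ l)
    (h : l.Pairwise fun p q => p.1 ≠ q.1) :
    nE l e.1 = Real.cos (2 * Real.pi * e.2.1 / e.1) := by
  induction l with
  | nil => exact absurd he (by simp)
  | cons a l ih =>
    rw [List.pairwise_cons] at h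
    rcases List.mem_cons.mp he with rfl | he'
    · have h1 : nE l e.1 = 0 := nE_zero fun p hp => (h.1 p hp).symm
      unfold nE at h1 ⊢
      rw [List.map_cons, List.sum_cons, h1, if_pos rfl, add_zero]
    · have h1 := ih he' h.2
      have h2 : a.1 ≠ e.1 := h.1 e he'
      unfold nE at h1 ⊢
      rw [List.map_cons, List.sum_cons, h1, if_neg h2, zero_add]

lemma okE_angle {p : ℝ × ℝ × ℝ} (h : OkE p) : Real.pi / 2 < p.1 ∧ p.1 < Real.pi := ⟨h.1, h.2.1⟩

/-- there is no item of the type E with the largest angle -/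
lemma no_E {x : ℝ} {EP : List (ℝ × ℝ × ℝ)} {α0 : ℝ} (hEP : ∀ p ∈ EP, OkE p)
    (hE : EP.Pairwise fun p q => p.1 ≠ q.1) (hx : ∃ n : ℤ, 2 * x = n)
    (h : 2 * nE EP α0 = x) : ∀ p ∈ EP, p.1 ≠ α0 := by
  intro e he hα
  obtain ⟨n, hn⟩ := hx
  rw [← hα, nE_one he hE] at h
  exact (hEP e he).2.2.2.2.2.2 n (by linarith)

/-- a nonempty finite list of real numbers has a largest element -/
lemma exists_max (S : List ℝ) (hS : S ≠ []) : ∃ a ∈ S, ∀ b ∈ S, b ≤ a := by
  induction S with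
  | nil => exact absurd rfl hS
  | cons a l ih =>
    by_cases hl : l = []
    · exact ⟨a, by simp, by simp [hl]⟩
    · obtain ⟨c, hc, hm⟩ := ih hl
      rcases le_total a c with h | h
      · exact ⟨c, by simp [hc], fun b hb => by
          rcases List.mem_cons.mp hb with rfl | hb
          · exact h
          · exact hm b hb⟩
      · exact ⟨a, by simp, fun b hb => by
          rcases List.mem_cons.mp hb with rfl | hb
          · exact le_rfl
          · exact (hm b hb).trans h⟩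

/-- step A: nothing in `P` of the type B -/
lemma stepA {BQ : List (ℝ × ℝ)} {HQ : List ℝ} {EP : List (ℝ × ℝ × ℝ)}
    (hBQ : ∀ p ∈ BQ, OkB p) (hHQ : ∀ α ∈ HQ, Real.pi / 2 < α ∧ α < Real.pi)
    (hEP : ∀ p ∈ EP, OkE p) (hE : EP.Pairwise fun p q => p.1 ≠ q.1)
    (h0 : ∀ v, gK [] BQ HQ EP v = 0) : BQ = [] ∧ HQ = [] ∧ EP = [] := by
  have hp := Real.pi_pos
  by_contra hne
  have hS : BQ.map Prod.fst ++ HQ ++ EP.map Prod.fst ≠ [] := by
    intro h
    simp only [List.append_eq_nil_iff, List.map_eq_nil_iff] at h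
    exact hne ⟨h.1.1, h.1.2, h.2⟩
  obtain ⟨α0, hα0, hmax⟩ := exists_max _ hS
  have m1 : ∀ p ∈ BQ, p.1 ≤ α0 := fun p hp => hmax _ (by
    simp only [List.mem_append, List.mem_map]; exact Or.inl (Or.inl ⟨p, hp, rfl⟩))
  have m2 : ∀ p ∈ HQ, p ≤ α0 := fun p hp => hmax _ (by
    simp only [List.mem_append]; exact Or.inl (Or.inr hp))
  have m3 : ∀ p ∈ EP, p.1 ≤ α0 := fun p hp => hmax _ (by
    simp only [List.mem_append, List.mem_map]; exact Or.inr ⟨p, hp, rfl⟩)
  have hsin : 0 < α0 ∧ Real.sin (Real.pi / α0 * Real.pi) ≠ 0 := by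
    simp only [List.mem_append, List.mem_map] at hα0
    rcases hα0 with (⟨p, hp1, hp2⟩ | h) | ⟨p, hp1, hp2⟩
    · have := okB_facts (hBQ p hp1)
      rw [← hp2]; exact ⟨this.1, this.2.2.2⟩
    · exact ⟨by linarith [(hHQ _ h).1], sin_ne1 (hHQ _ h).1 (hHQ _ h).2⟩
    · have := okE_angle (hEP p hp1)
      rw [← hp2]; exact ⟨by linarith, sin_ne1 this.1 this.2⟩
  have hco := coef h0 hsin.1 hsin.2 (fun p hp => absurd hp (by simp))
    (fun p hp => ⟨(okB_facts (hBQ p hp)).1, m1 p hp⟩)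
    (fun p hp => ⟨by linarith [(hHQ _ hp).1], m2 p hp⟩)
    (fun p hp => ⟨by linarith [(okE_angle (hEP p hp)).1], m3 p hp⟩)
  have hnil : nB [] α0 = 0 := by simp [nB]
  obtain ⟨m, hm, hm0⟩ := nB_nat BQ α0
  obtain ⟨n, hn, hn0⟩ := nH_nat HQ α0
  rw [hnil, hm, hn] at hco
  have hE0 := no_E (x := m + 1 / 2 * n) (α0 := α0) hEP hE ⟨2 * m + n, by push_cast; ring⟩ (by linarith)
  rw [nE_zero hE0] at hco
  have hmn : (2 * m + n : ℝ) = 0 := by linarith
  have hmn' : 2 * m + n = 0 := by exact_mod_cast hmn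
  simp only [List.mem_append, List.mem_map] at hα0
  rcases hα0 with (⟨p, hp1, hp2⟩ | h) | ⟨p, hp1, hp2⟩
  · exact hm0 (by omega) p hp1 hp2
  · exact hn0 (by omega) _ h rfl
  · exact hE0 p hp1 hp2

lemma filter_split {α : Type*} (l : List α) (P : α → Prop) [DecidablePred P] (f : α → ℝ) (c : ℝ)
    (h : ∀ a, P a → f a = c) :
    (l.map f).sum = (l.map fun a => if P a then (1 : ℝ) else 0).sum * c
      + ((l.filter fun a => ¬ P a).map f).sum := by
  induction l with
  | nil => simp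
  | cons a l ih =>
    by_cases ha : P a
    · simp only [List.map_cons, List.sum_cons, if_pos ha, h a ha]
      rw [List.filter_cons_of_neg (by simpa using ha), ih]
      ring
    · simp only [List.map_cons, List.sum_cons, if_neg ha, zero_add]
      rw [List.filter_cons_of_pos (by simpa using ha), List.map_cons, List.sum_cons, ih]
      ring

/-- step B: one item in `P` of the type B -/
lemma stepB {p0 : ℝ × ℝ} {BQ : List (ℝ × ℝ)} {HQ : List ℝ} {EP : List (ℝ × ℝ × ℝ)}
    (hp0 : OkB p0) (hBQ : ∀ p ∈ BQ, OkB p) (hHQ : ∀ α ∈ HQ, Real.pi / 2 < α ∧ α < Real.pi)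
    (hEP : ∀ p ∈ EP, OkE p) (hE : EP.Pairwise fun p q => p.1 ≠ q.1)
    (h0 : ∀ v, gK [p0] BQ HQ EP v = 0) : EP = [] ∧
      ((∃ q, BQ = [q] ∧ HQ = [] ∧ q.1 = p0.1) ∨ (BQ = [] ∧ HQ = [p0.1, p0.1])) := by
  have hp := Real.pi_pos
  have hS : p0.1 :: (BQ.map Prod.fst ++ HQ ++ EP.map Prod.fst) ≠ [] := by simp
  obtain ⟨α0, hα0, hmax⟩ := exists_max _ hS
  have m0 : p0.1 ≤ α0 := hmax _ (by simp)
  have m1 : ∀ p ∈ BQ, p.1 ≤ α0 := fun p hp => hmax _ (by
    simp only [List.mem_cons, List.mem_append, List.mem_map]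
    exact Or.inr (Or.inl (Or.inl ⟨p, hp, rfl⟩)))
  have m2 : ∀ p ∈ HQ, p ≤ α0 := fun p hp => hmax _ (by
    simp only [List.mem_cons, List.mem_append]; exact Or.inr (Or.inl (Or.inr hp)))
  have m3 : ∀ p ∈ EP, p.1 ≤ α0 := fun p hp => hmax _ (by
    simp only [List.mem_cons, List.mem_append, List.mem_map]; exact Or.inr (Or.inr ⟨p, hp, rfl⟩))
  have hsin : 0 < α0 ∧ Real.sin (Real.pi / α0 * Real.pi) ≠ 0 := by
    simp only [List.mem_cons, List.mem_append, List.mem_map] at hα0
    rcases hα0 with h | (⟨p, hp1, hp2⟩ | h) | ⟨p, hp1, hp2⟩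
    · have := okB_facts hp0
      rw [h]; exact ⟨this.1, this.2.2.2⟩
    · have := okB_facts (hBQ p hp1)
      rw [← hp2]; exact ⟨this.1, this.2.2.2⟩
    · exact ⟨by linarith [(hHQ _ h).1], sin_ne1 (hHQ _ h).1 (hHQ _ h).2⟩
    · have := okE_angle (hEP p hp1)
      rw [← hp2]; exact ⟨by linarith, sin_ne1 this.1 this.2⟩
  have hco := coef h0 hsin.1 hsin.2
    (fun p hp => by
      rw [List.mem_singleton] at hp
      rw [hp]; exact ⟨(okB_facts hp0).1, m0⟩)
    (fun p hp => ⟨(okB_facts (hBQ p hp)).1, m1 p hp⟩)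
    (fun p hp => ⟨by linarith [(hHQ _ hp).1], m2 p hp⟩)
    (fun p hp => ⟨by linarith [(okE_angle (hEP p hp)).1], m3 p hp⟩)
  obtain ⟨k, hk, hk0⟩ := nB_nat [p0] α0
  obtain ⟨m, hm, hm0⟩ := nB_nat BQ α0
  obtain ⟨n, hn, hn0⟩ := nH_nat HQ α0
  rw [hk, hm, hn] at hco
  have hE0 := no_E (x := m + 1 / 2 * n - k) (α0 := α0) hEP hE ⟨2 * m + n - 2 * k, by push_cast; ring⟩
    (by linarith)
  rw [nE_zero hE0] at hco
  have hα : p0.1 = α0 := by
    by_contra hne
    have hk' : nB [p0] α0 = 0 := by simp [nB, hne]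
    rw [hk'] at hk
    rw [← hk] at hco
    have hmn : (2 * m + n : ℝ) = 0 := by linarith
    have hmn' : 2 * m + n = 0 := by exact_mod_cast hmn
    simp only [List.mem_cons, List.mem_append, List.mem_map] at hα0
    rcases hα0 with h | (⟨p, hp1, hp2⟩ | h) | ⟨p, hp1, hp2⟩
    · exact hne h.symm
    · exact hm0 (by omega) p hp1 hp2
    · exact hn0 (by omega) _ h rfl
    · exact hE0 p hp1 hp2
  have hk1 : nB [p0] α0 = 1 := by simp [nB, hα]
  rw [hk1] at hk
  rw [← hk] at hco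
  -- remove the items with the angle `α0`
  have h1 : ∀ v, gK [] (BQ.filter fun q => ¬ q.1 = α0) (HQ.filter fun a => ¬ a = α0) EP v = 0 := by
    intro v
    have e1 := filter_split BQ (fun q => q.1 = α0) (fun q => KKf (Real.pi / q.1) (2 * v))
      (KKf (Real.pi / α0) (2 * v)) (fun a ha => by rw [ha])
    have e2 := filter_split HQ (fun a => a = α0) (fun a => 1 / 2 * KKf (Real.pi / a) (2 * v))
      (1 / 2 * KKf (Real.pi / α0) (2 * v)) (fun a ha => by rw [ha])
    have e3 : (BQ.map fun a => if a.1 = α0 then (1 : ℝ) else 0).sum = m := hm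
    have e4 : (HQ.map fun a => if a = α0 then (1 : ℝ) else 0).sum = n := hn
    rw [e3] at e1
    rw [e4] at e2
    have e5 := h0 v
    unfold gK at e5 ⊢
    simp only [List.map_cons, List.map_nil, List.sum_cons, List.sum_nil] at e5 ⊢
    rw [e1, e2, hα] at e5
    linear_combination e5 - KKf (Real.pi / α0) (2 * v) * hco
  obtain ⟨f1, f2, f3⟩ := stepA (fun p hp => hBQ p (List.mem_of_mem_filter hp))
    (fun a ha => hHQ a (List.mem_of_mem_filter ha)) hEP hE h1
  refine ⟨f3, ?_⟩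
  have g1 : ∀ q ∈ BQ, q.1 = α0 := by
    intro q hq
    by_contra h
    have : q ∈ BQ.filter fun q => ¬ q.1 = α0 := List.mem_filter.mpr ⟨hq, by simpa using h⟩
    rw [f1] at this
    simp at this
  have g2 : ∀ a ∈ HQ, a = α0 := by
    intro q hq
    by_contra h
    have : q ∈ HQ.filter fun q => ¬ q = α0 := List.mem_filter.mpr ⟨hq, by simpa using h⟩
    rw [f2] at this
    simp at this
  have l1 : (BQ.length : ℝ) = m := by
    rw [← hm]
    unfold nB
    rw [List.map_congr_left (g := fun _ => (1 : ℝ)) (fun a ha => by rw [if_pos (g1 a ha)])]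
    simp
  have l2 : (HQ.length : ℝ) = n := by
    rw [← hn]
    unfold nH
    rw [List.map_congr_left (g := fun _ => (1 : ℝ)) (fun a ha => by rw [if_pos (g2 a ha)])]
    simp
  have l3 : 2 * BQ.length + HQ.length = 2 := by
    have : (2 * BQ.length + HQ.length : ℝ) = 2 := by rw [l1, l2]; linarith
    exact_mod_cast this
  rcases Nat.eq_zero_or_pos BQ.length with h | h
  · right
    have hB : BQ = [] := List.length_eq_zero_iff.mp h
    have hH : HQ.length = 2 := by omega
    obtain ⟨a, b, hab⟩ := List.length_eq_two.mp hH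
    refine ⟨hB, ?_⟩
    rw [hab]
    rw [g2 a (by simp [hab]), g2 b (by simp [hab]), hα]
  · left
    have hB : BQ.length = 1 := by omega
    have hH : HQ = [] := List.length_eq_zero_iff.mp (by omega)
    obtain ⟨q, hq⟩ := List.length_eq_one_iff.mp hB
    exact ⟨q, hq, hH, by rw [g1 q (by simp [hq]), hα]⟩

/-! ### The constants -/

lemma lim_gK {BP BQ : List (ℝ × ℝ)} {HQ : List ℝ} {EP : List (ℝ × ℝ × ℝ)}
    (hBP : ∀ p ∈ BP, 0 < p.1) (hBQ : ∀ p ∈ BQ, 0 < p.1)
    (hHQ : ∀ α ∈ HQ, 0 < α) (hEP : ∀ p ∈ EP, 0 < p.1) :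
    Tendsto (gK BP BQ HQ EP) atTop (𝓝 0) := by
  have hpi := Real.pi_pos
  have key : ∀ α : ℝ, 0 < α → Tendsto (fun v : ℝ => 1 * KKf (Real.pi / α) (2 * v)) atTop (𝓝 0) := by
    intro α hα
    have hb := div_pos hpi hα
    have := lim_KKf (b0 := 0) hb hb.le
    rw [if_neg hb.ne'] at this
    refine this.congr fun v => ?_
    rw [show 2 * 0 * v = (0 : ℝ) by ring, Real.exp_zero]
  have L1 := lim_sum BP (fun p v => KKf (Real.pi / p.1) (2 * v)) (fun _ => 0) (fun _ => 1)
    (fun p hp => key p.1 (hBP p hp))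
  have L2 := lim_sum BQ (fun p v => KKf (Real.pi / p.1) (2 * v)) (fun _ => 0) (fun _ => 1)
    (fun p hp => key p.1 (hBQ p hp))
  have L3 := lim_sum HQ (fun α v => 1 / 2 * KKf (Real.pi / α) (2 * v)) (fun _ => 0) (fun _ => 1)
    (fun α hα => by
      have := (key α (hHQ α hα)).const_mul (1 / 2)
      rw [mul_zero] at this
      exact this.congr fun v => by ring)
  have L4 := lim_sum EP (fun p v => 2 * KKt (Real.pi / p.1) p.2.1 v) (fun _ => 0) (fun _ => 1)
    (fun p hp => by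
      have hb := div_pos hpi (hEP p hp)
      have := (lim_KKt (b0 := 0) (θ := p.2.1) hb hb.le).const_mul 2
      rw [if_neg hb.ne', mul_zero] at this
      refine this.congr fun v => ?_
      rw [zero_mul, Real.exp_zero]
      ring)
  have z : ∀ {α : Type} (l : List α), (l.map fun _ => (0 : ℝ)).sum = 0 := by
    intro α l; simp
  have L := ((L1.add L4).sub L2).sub L3
  rw [z, z, z, z] at L
  simp only [add_zero, sub_zero] at L
  refine L.congr fun v => ?_
  unfold gK
  ring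

lemma Ceta_inj0 {b η : ℝ} (hb : 0 < b) (hs : Real.sin (b * Real.pi) ≠ 0)
    (hη : η ∈ Set.Ioo 0 (Real.pi / b)) (hc : Real.cos (b * Real.pi) ≠ Real.cos (2 * b * η)) :
    Ceta b η ≠ Ceta b 0 := by
  have hb1 : Real.cos (b * Real.pi) ≠ 1 := by
    intro h
    have h2 := Real.sin_sq_add_cos_sq (b * Real.pi)
    rw [h] at h2
    exact hs (pow_eq_zero_iff two_ne_zero |>.mp (by linarith))
  have h := Pool.Agent.AEU.H12.c0_ne hb hb1 hs hη hc
  have e : Ceta b 0 = KKf b 0 := by
    unfold Ceta KKf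
    simp
  rw [e]
  exact sub_ne_zero.mp h

lemma Ceta_inj {b η η' : ℝ} (hb : 0 < b) (hs : Real.sin (b * Real.pi) ≠ 0)
    (hη : η ∈ Set.Ioo 0 (Real.pi / b)) (hη' : η' ∈ Set.Ioo 0 (Real.pi / b))
    (hc : Real.cos (b * Real.pi) ≠ Real.cos (2 * b * η))
    (hc' : Real.cos (b * Real.pi) ≠ Real.cos (2 * b * η')) (h : Ceta b η = Ceta b η') :
    η' = η ∨ η' = Real.pi / b - η := by
  have e : ∀ x : ℝ, Ceta b x = Pool.Agent.AEU.H12.cB b x / 2 := by
    intro x
    unfold Ceta Pool.Agent.AEU.H12.cB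
    rw [← neg_sub (Real.cos (b * Real.pi)) (Real.cos (2 * b * x)), mul_neg, neg_div_neg_eq]
    ring
  rw [e, e] at h
  exact Pool.Agent.AEU.H12.b_dir hb hs hη hη' hc hc' (by linarith)

/-- **Module U2**: if the density of the group B, H, E vanishes, the lists agree. -/
theorem u2 {BP BQ : List (ℝ × ℝ)} {HQ : List ℝ} {EP : List (ℝ × ℝ × ℝ)}
    (hlen : BP.length ≤ 1) (hBP : ∀ p ∈ BP, OkB p) (hBQ : ∀ p ∈ BQ, OkB p)
    (hHQ : ∀ α ∈ HQ, Real.pi / 2 < α ∧ α < Real.pi) (hEP : ∀ p ∈ EP, OkE p)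
    (hE : EP.Pairwise fun p q => p.1 ≠ q.1) (h0 : ∀ v, gBHE BP BQ HQ EP v = 0) :
    HQ = [] ∧ EP = [] ∧ ((BP = [] ∧ BQ = []) ∨
      ∃ p q, BP = [p] ∧ BQ = [q] ∧ p.1 = q.1 ∧ (p.2 = q.2 ∨ p.2 = q.1 - q.2)) := by
  have hp := Real.pi_pos
  have hlim := lim_gK (fun p hp => (okB_facts (hBP p hp)).1) (fun p hp => (okB_facts (hBQ p hp)).1)
    (fun α hα => (by linarith [(hHQ α hα).1] : 0 < α))
    (fun p hp => (by linarith [(okE_angle (hEP p hp)).1] : 0 < p.1))
  have hC : gC BP BQ HQ EP = 0 := by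
    refine tendsto_nhds_unique (tendsto_const_nhds (x := gC BP BQ HQ EP) (f := (atTop : Filter ℝ)))
      (hlim.congr fun v => ?_)
    have := h0 v
    rw [gBHE_eq] at this
    linarith
  have hK : ∀ v, gK BP BQ HQ EP v = 0 := by
    intro v
    have := h0 v
    rw [gBHE_eq] at this
    linarith
  rcases Nat.eq_zero_or_pos BP.length with h | h
  · have hB : BP = [] := List.length_eq_zero_iff.mp h
    subst hB
    obtain ⟨f1, f2, f3⟩ := stepA hBQ hHQ hEP hE hK
    exact ⟨f2, f3, Or.inl ⟨rfl, f1⟩⟩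
  · obtain ⟨p0, hB⟩ := List.length_eq_one_iff.mp (show BP.length = 1 by omega)
    subst hB
    have hp0 := hBP p0 (by simp)
    obtain ⟨f1, f2⟩ := stepB hp0 hBQ hHQ hEP hE hK
    obtain ⟨a1, a2, a3, a4⟩ := okB_facts hp0
    have hb := div_pos hp a1
    have em : ∀ x, x ∈ Set.Ioo 0 p0.1 → x ∈ Set.Ioo 0 (Real.pi / (Real.pi / p0.1)) := by
      intro x hx
      have : Real.pi / (Real.pi / p0.1) = p0.1 := by field_simp
      rwa [this]
    subst f1
    rcases f2 with ⟨q, rfl, rfl, hq⟩ | ⟨rfl, rfl⟩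
    · refine ⟨rfl, rfl, Or.inr ⟨p0, q, rfl, rfl, hq.symm, ?_⟩⟩
      have hq0 := hBQ q (by simp)
      obtain ⟨b1, b2, b3, b4⟩ := okB_facts hq0
      have hcq := okB_cos hq0
      rw [hq] at hcq
      have hce : Ceta (Real.pi / p0.1) q.2 = Ceta (Real.pi / p0.1) p0.2 := by
        unfold gC at hC
        simp only [List.map_cons, List.map_nil, List.sum_cons, List.sum_nil, hq] at hC
        linarith
      have := Ceta_inj hb a4 (em q.2 ⟨b2, by rw [← hq]; exact b3⟩) (em p0.2 ⟨a2, a3⟩) hcq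
        (okB_cos hp0) hce
      rcases this with h1 | h1
      · exact Or.inl h1
      · right
        rw [h1, hq]
        field_simp
    · exfalso
      have hce : Ceta (Real.pi / p0.1) p0.2 = Ceta (Real.pi / p0.1) 0 := by
        unfold gC at hC
        simp only [List.map_cons, List.map_nil, List.sum_cons, List.sum_nil] at hC
        linarith
      exact Ceta_inj0 hb a4 (em p0.2 ⟨a2, a3⟩) (okB_cos hp0) hce

end Pool.Agent.XQ.H59
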