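import Pool.Agent.Helper12_XQ.Stmt
import Pool.Agent.Helper59_XQ.U2

/-!
Squad XQ (MP_5b0138_an), module U_COREB: uniqueness for the densities of the types B, H, E.
-/

set_option autoImplicit false

namespace Pool.Agent.XQ.U.H59

open Pool.Agent.AEU.H12 (Ceta KKf)

lemma Ceta_zero (b : ℝ) : Ceta b 0 = KKf b 0 := by
  unfold Ceta KKf
  simp

/-- **Module U_COREB.** -/
theorem coreB : CoreBStmt := by
  intro BP BQ HQ EP h1 h2 h3 h4 h5 h6 h7
  refine Pool.Agent.XQ.H59.u2 h1 h2 h3 h4 h5 h6 fun v => ?_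
  have h := h7 v
  unfold gBHE at h
  unfold Pool.Agent.XQ.H59.gBHE
  have e : ∀ α : ℝ, fH α v = 1 / 2 * (Ceta (Real.pi / α) 0 - KKf (Real.pi / α) (2 * v)) := by
    intro α; rw [Ceta_zero]; rfl
  simp only [e] at h
  unfold fB fE at h
  linarith

end Pool.Agent.XQ.U.H59
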