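import Pool.Agent.Helper16_XQ.StmtG

/-! Squad XQ (MP_5b0138_an), part G: modules TBM and PLC (helper59). -/

set_option autoImplicit false

namespace Pool.Agent.XQ

open MeasureTheory Complex Filter Topology Pool.Agent.H62T
open Pool.Agent.H16F (Sublin)
open Pool.Agent.AEU

/-- **Module G_TBM.** -/
theorem tbm : TbmStatement := by
  intro X Y F K L c hX hF hT hU t ht hct
  have key : ∀ h, Sublin h → Fits X h → F.erase t ⊆ touch X h → lam h ≤ L → h = K := by
    intro h hs hf htch hl
    refine hT.uniq h hs (fun s hsF => ?_) hl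
    by_cases hst : s = t
    · subst hst
      have h1 : h s.1 - s.2 ≤ 0 := by linarith [hf s (hF hsF)]
      exact mul_nonneg_of_nonpos_of_nonpos hct.le h1
    · have h1 : s ∈ touch X h := htch (Finset.mem_erase.mpr ⟨hst, hsF⟩)
      have h2 : h s.1 = s.2 := (Finset.mem_filter.mp h1).2
      rw [h2, sub_self, mul_zero]
  refine ⟨?_, key, ?_⟩
  · rintro ⟨h, hs, hf, htch, hl⟩
    have := key h hs hf htch hl.le
    rw [this, hT.len] at hl
    exact lt_irrefl _ hl
  · rintro ⟨-, -, h, g, hsp, hm, htch, hl⟩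
    have h1 := key h hsp.sub hsp.fits htch (by
      rcases hl with hl | hl
      · exact hl.le
      · exact hl.1.le)
    subst h1
    exact hU.2 ⟨g, hm.fits', hm.mem⟩

/-- **Module G_PLC.** -/
theorem plc (hlxx : LxxStatement) : PlcStatement := by
  intro X Y L env S hS hcard hLt hG
  obtain ⟨h1, hs1, hf1, ht1, hl1⟩ := hLt
  have h2 : ∃ h', Special X h' ∧ S ⊆ touch X h' ∧ lam h' ≤ lam h1 := by
    by_contra hne
    push Not at hne
    exact hG ⟨hS, hcard, h1, hs1, hf1, ht1, fun h' hsp ht' => hne h' hsp ht'⟩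
  obtain ⟨h', hsp, ht', hl'⟩ := h2
  have hlt : lam h' < L := lt_of_le_of_lt hl' hl1
  obtain ⟨g, hg⟩ := env.all h' hsp hlt
  exact ⟨g, fun s hs => hg.mem s (ht' hs), fun h hs hf ht =>
    hlxx X Y L env S g h' h hcard ht' ht hsp.sub hs hg hf hlt⟩

end Pool.Agent.XQ
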