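import Pool.Agent.Helper16_XQ.StmtG
import Pool.Agent.Helper69_AEU.Per
import Pool.Agent.Helper69_AEU.Lam

/-! Squad XQ (MP_5b0138_an), part G: module UTX (helper59). -/

set_option autoImplicit false

namespace Pool.Agent.XQ

open MeasureTheory Complex Filter Topology Pool.Agent.H62T
open Pool.Agent.H16F (Sublin)
open Pool.Agent.AEU

lemma H59.continuous_ip (w : ℂ) : Continuous fun x : ℂ => ip w x := by
  unfold ip
  fun_prop

lemma H59.isClosed_Cl (X : Finset HP) : IsClosed (Cl X) := by
  have : Cl X = ⋂ s ∈ X, {x : ℂ | ip s.1 x ≤ s.2} := by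
    ext x
    simp only [Cl, Set.mem_ofPred_eq, Set.mem_iInter]
  rw [this]
  exact isClosed_biInter fun s _ => isClosed_le (H59.continuous_ip s.1) continuous_const

/-- **Module G_UTX.** -/
theorem utx : UtxStatement := by
  intro X hX S L hS hcard hLe
  obtain ⟨a, b, c, hab, hac, hbc, rfl⟩ := Finset.card_eq_three.mp hcard
  have ha : a ∈ X := hS (by simp)
  have hb : b ∈ X := hS (by simp)
  have hc : c ∈ X := hS (by simp)
  have hcpt : IsCompact (Cl X) := Metric.isCompact_of_isClosed_isBounded (H59.isClosed_Cl X) hX.bdd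
  obtain ⟨K, hK⟩ : ∃ K : Set (Fin 3 → ℂ), K = (Set.univ.pi fun _ => Cl X) ∩
    {x | ip a.1 (x 0) = a.2 ∧ ip b.1 (x 1) = b.2 ∧ ip c.1 (x 2) = c.2} := ⟨_, rfl⟩
  have hKc : IsCompact K := by
    rw [hK]
    refine (isCompact_univ_pi fun _ => hcpt).inter_right ?_
    refine (isClosed_eq ((H59.continuous_ip a.1).comp (continuous_apply 0)) continuous_const).inter
      ((isClosed_eq ((H59.continuous_ip b.1).comp (continuous_apply 1)) continuous_const).inter
        (isClosed_eq ((H59.continuous_ip c.1).comp (continuous_apply 2)) continuous_const))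
  -- every body contains the hull of contact points
  have hred : ∀ h, Sublin h → Fits X h → ({a, b, c} : Finset HP) ⊆ touch X h →
      ∃ x ∈ K, lam (hf x) ≤ lam h := by
    intro h hs hfit ht
    obtain ⟨-, -, -, hsup⟩ := H69.sup h hs
    have hcl : ∀ y, In y h → y ∈ Cl X := fun y hy s hsX => (hy s.1).trans (hfit s hsX)
    have hon : ∀ s ∈ ({a, b, c} : Finset HP), h s.1 = s.2 := fun s hs' =>
      (Finset.mem_filter.mp (ht hs')).2
    obtain ⟨x0, hx0, ha0⟩ := hsup a.1
    obtain ⟨x1, hx1, hb1⟩ := hsup b.1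
    obtain ⟨x2, hx2, hc2⟩ := hsup c.1
    have hin : ∀ i, In ((![x0, x1, x2] : Fin 3 → ℂ) i) h := by
      intro i
      fin_cases i
      · exact hx0
      · exact hx1
      · exact hx2
    refine ⟨![x0, x1, x2], ?_, ?_⟩
    · rw [hK]
      refine ⟨fun i _ => hcl _ (hin i), ?_, ?_, ?_⟩
      · change ip a.1 x0 = a.2
        rw [ha0]; exact hon a (by simp)
      · change ip b.1 x1 = b.2
        rw [hb1]; exact hon b (by simp)
      · change ip c.1 x2 = c.2
        rw [hc2]; exact hon c (by simp)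
    · obtain ⟨hsub, -, -, hle, -⟩ := H69.hul 2 ![x0, x1, x2]
      exact (H69.lamS.2.1 _ h hsub hs (hle h hin)).1
  rcases K.eq_empty_or_nonempty with hE | hne
  · refine ⟨1, one_pos, fun h hs hfit ht => ?_⟩
    obtain ⟨x, hx, -⟩ := hred h hs hfit ht
    rw [hE] at hx
    exact absurd hx (Set.notMem_empty x)
  · obtain ⟨x, hx, hmin⟩ := hKc.exists_isMinOn hne (H69.cnt 2).2.continuousOn
    have hx' := hx
    rw [hK] at hx'
    obtain ⟨hx1, hx2, hx3, hx4⟩ := hx'
    have hm := (H69.mixS X).2.2 2 x fun i => hx1 i (Set.mem_univ i)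
    have hlt : L < lam (hf x) := by
      by_contra hle
      push Not at hle
      refine hLe ⟨hf x, (H69.hul 2 x).1, hm.1, ?_, hle⟩
      intro s hs
      rw [hm.2 s]
      simp only [Finset.mem_insert, Finset.mem_singleton] at hs
      rcases hs with rfl | rfl | rfl
      · exact ⟨ha, 0, hx2⟩
      · exact ⟨hb, 1, hx3⟩
      · exact ⟨hc, 2, hx4⟩
    refine ⟨lam (hf x) - L, by linarith, fun h hs hfit ht => ?_⟩
    obtain ⟨y, hy, hyl⟩ := hred h hs hfit ht
    have : lam (hf x) ≤ lam (hf y) := hmin hy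
    linarith

end Pool.Agent.XQ
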